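import Pool.Agent.GEN.StmtsU

/-!
# GEN, row AMP: symbols and homomorphisms of the coefficients
-/

set_option autoImplicit false

namespace Pool.Agent.GEN.H26

open Pool.Agent.GEN MvPolynomial

theorem dWordR_map {σ A K : Type} [CommRing A] [CommRing K] (φ : A →+* K) (v : List σ)
    (w : MvPolynomial σ A) : map φ (dWordR v w) = dWordR v (map φ w) := by
  induction v with
  | nil => rfl
  | cons i v ih =>
    change map φ (pderiv i (dWordR v w)) = pderiv i (dWordR v (map φ w))
    rw [← ih, pderiv_map]

/-- **Row AMP.** -/
theorem amp : AmpStmt := by
  intro σ A K _ _ φ l w p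
  induction p using MvPolynomial.induction_on' with
  | monomial m c =>
    rw [act_monomial, map_monomial, act_monomial]
    simp only [map_mul, map_C, map_monomial, map_one, map_pow, dE, dWordR_map]
  | add p q hp hq => rw [map_add, map_add, map_add, map_add, hp, hq]

end Pool.Agent.GEN.H26
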